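import Pool.Agent.TH198.AT.Stmts

/-! Cameron–Martin for even functions. -/

set_option autoImplicit false

open MeasureTheory ProbabilityTheory Set

namespace Pool.TH198.AT

namespace CMf

theorem E1_eq (F : ℝ → ℝ) :
    E1 F = ∫ z, ((√(2 * Real.pi))⁻¹ * Real.exp (-z ^ 2 / 2)) * F z := by
  unfold E1
  rw [integral_gaussianReal_eq_integral_smul one_ne_zero]
  refine integral_congr_ae (Filter.Eventually.of_forall fun z => ?_)
  simp only [gaussianPDFReal, smul_eq_mul, NNReal.coe_one, mul_one, sub_zero]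

theorem shift (G : ℝ → ℝ) (s h : ℝ) (hs : 0 < s) :
    E1 (fun z => G (h + √s * z)) =
      Real.exp (-h ^ 2 / (2 * s)) * E1 (fun z => Real.exp (h / √s * z) * G (√s * z)) := by
  have hq : 0 < √s := Real.sqrt_pos.2 hs
  have hq2 : √s * √s = s := Real.mul_self_sqrt hs.le
  rw [E1_eq, E1_eq, ← integral_const_mul]
  rw [← integral_sub_right_eq_self (fun z => ((√(2 * Real.pi))⁻¹ * Real.exp (-z ^ 2 / 2)) *
    G (h + √s * z)) (h / √s)]
  refine integral_congr_ae (Filter.Eventually.of_forall fun z => ?_)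
  simp only
  have e1 : h + √s * (z - h / √s) = √s * z := by
    field_simp
    ring
  have e2 : Real.exp (-(z - h / √s) ^ 2 / 2) =
      Real.exp (-h ^ 2 / (2 * s)) * Real.exp (-z ^ 2 / 2) * Real.exp (h / √s * z) := by
    rw [← Real.exp_add, ← Real.exp_add]
    congr 1
    have e3 : h / √s * (h / √s) = h ^ 2 / s := by
      rw [div_mul_div_comm, hq2, sq]
    have e4 : -h ^ 2 / (2 * s) = -(h ^ 2 / s) / 2 := by
      field_simp
    rw [e4, ← e3]
    ring
  rw [e1, e2]
  ring

theorem flip (F : ℝ → ℝ) : E1 (fun z => F (-z)) = E1 F := by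
  rw [E1_eq, E1_eq, ← integral_neg_eq_self (fun z => ((√(2 * Real.pi))⁻¹ * Real.exp (-z ^ 2 / 2)) * F z)]
  refine integral_congr_ae (Filter.Eventually.of_forall fun z => ?_)
  simp only [neg_sq]

theorem integ (G : ℝ → ℝ) (C : ℝ) (hG : Continuous G) (hC : ∀ x, |G x| ≤ C) (c q : ℝ) :
    Integrable (fun z => Real.exp (c * z) * G (q * z)) (gaussianReal 0 1) := by
  refine (integrable_exp_mul_gaussianReal (μ := 0) (v := 1) c).mul_bdd (c := C)
    (hG.comp (continuous_const.mul continuous_id)).aestronglyMeasurable ?_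
  exact Filter.Eventually.of_forall fun z => hC _

end CMf

theorem t_CM : St_CM := by
  intro G C hG hev hC s h hs
  have hq : 0 < √s := Real.sqrt_pos.2 hs
  have hq2 : √s * √s = s := Real.mul_self_sqrt hs.le
  rw [CMf.shift G s h hs]
  congr 1
  have e1 : E1 (fun z => Real.exp (-(h / √s) * z) * G (√s * z)) =
      E1 (fun z => Real.exp (h / √s * z) * G (√s * z)) := by
    rw [← CMf.flip (fun z => Real.exp (h / √s * z) * G (√s * z))]
    congr 1
    funext z
    rw [mul_neg, mul_neg, hev, neg_mul]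
  have e2 : E1 (fun z => Real.cosh (h / s * (√s * z)) * G (√s * z)) =
      (E1 (fun z => Real.exp (h / √s * z) * G (√s * z)) +
        E1 (fun z => Real.exp (-(h / √s) * z) * G (√s * z))) / 2 := by
    unfold E1
    rw [← integral_add (CMf.integ G C hG hC _ _) (CMf.integ G C hG hC _ _), ← integral_div]
    refine integral_congr_ae (Filter.Eventually.of_forall fun z => ?_)
    simp only
    have e3 : h / s * (√s * z) = h / √s * z := by
      rw [← mul_assoc, div_mul_eq_mul_div]
      congr 1
      rw [div_eq_div_iff hs.ne' hq.ne', mul_assoc, hq2]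
    rw [e3, Real.cosh_eq, neg_mul]
    ring
  rw [e2, e1]
  ring

end Pool.TH198.AT
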